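import Pool.Agent.P.MP_3be8c7_an.QMAIN

/-!
# Ulam stability passes to hereditary subalgebras

If a C⋆-algebra `A` is Ulam stable with respect to von Neumann algebras, then so is every closed
hereditary star-subalgebra `D` of `A` (full or not).
-/

open Filter Topology Ulam

theorem Pool.Agent.Results.MP_3be8c7_an.Hereditary.result.{u}
    (A : Type u) [NonUnitalCStarAlgebra A] [PartialOrder A] [StarOrderedRing A]
    (hA : ∃ f : ℝ → ℝ, Tendsto f (𝓝[>] 0) (𝓝 0) ∧ StableWith.{u, u} f A)
    (D : NonUnitalStarSubalgebra ℂ A) [IsClosed (D : Set A)] (hD : IsHereditary D) :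
    ∃ g : ℝ → ℝ, Tendsto g (𝓝[≥] 0) (𝓝 0) ∧ StableWith.{u, u} g D := by
  obtain ⟨f, hf, hA⟩ := hA
  exact stable_hereditary hf hA D hD
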