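import Pool.Agent.P.MP_3be8c7_an.MAIN

/-!
# Hereditary subalgebras of nuclear C⋆-algebras are uniformly Ulam stable

One modulus `f` of Ulam stability with respect to von Neumann algebras works for every closed
hereditary star-subalgebra `D` of every nuclear C⋆-algebra `A` (in particular for `D = A`).
-/

open Filter Topology Ulam

theorem Pool.Agent.Results.MP_3be8c7_an.Nuclear.result.{u, v} :
    ∃ f : ℝ → ℝ, Tendsto f (𝓝[≥] 0) (𝓝 0) ∧
    ∀ (A : Type u) [NonUnitalCStarAlgebra A] [PartialOrder A] [StarOrderedRing A], IsNuclear A →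
    ∀ (D : NonUnitalStarSubalgebra ℂ A) [IsClosed (D : Set A)], IsHereditary D →
      StableWith.{u, v} f D :=
  stable_of_nuclear
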